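import Mathlib
import Pool.Agent.MP_dbc840_nt.r.Main

namespace Pool.Agent.Results.MP_dbc840_nt.Full

/-- For odd `a > b > 0` and an integer `j`, the equation `3 ^ a + 3 ^ b + 2 = (6 j + 2) ^ 5`
holds exactly for `(a, b, j) = (3, 1, 0)`. -/
theorem result (a b : ℕ) (j : ℤ) (hb0 : 0 < b) (hab : b < a) (ha : Odd a) (hb : Odd b) :
    (3 : ℤ) ^ a + 3 ^ b + 2 = (6 * j + 2) ^ 5 ↔ a = 3 ∧ b = 1 ∧ j = 0 := by
  constructor
  · intro h
    rcases Pool.Agent.MP_dbc840_nt.r.only ha hb h with ⟨rfl, rfl⟩ | ⟨rfl, rfl⟩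
    · have h1 : (6 * j + 2) ^ 5 = (2 : ℤ) ^ 5 := by rw [← h]; norm_num
      have h2 := (Odd.pow_inj (by decide : Odd 5)).1 h1
      exact ⟨rfl, rfl, by omega⟩
    · omega
  · rintro ⟨rfl, rfl, rfl⟩
    norm_num

end Pool.Agent.Results.MP_dbc840_nt.Full
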